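import Pool.Agent.H829.Adaptive

/-!
# No definable product of graphs is nearly multiplicative, and the optimal loss is logarithmic

`MP_99abf8_co` asks for a polynomial graph product `*` with
`c χ(G) χ(H) ≤ χ(G * H) ≤ χ(G) χ(H)` for all graphs `G`, `H`.

The vertices of the products considered here are the triples `(i, x, x')`, where `i` is one of
finitely many kinds, `x` an `a`-tuple of vertices of `G` and `x'` a `b`-tuple of vertices of `H`. The
adjacency is given by a rule about `G` with the tuples `x, y` and `H` with the tuples `x', y'`. The
rule can be any formula of first-order logic, or even of the infinitary logic with finitely many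
variables (this is the logic with arbitrary infinite conjunctions, where every formula has only
finitely many variables; it is known to contain the fixed-point logics). More generally the rule can
be arbitrary as long as it does not distinguish tuples which are equivalent in the infinite pebble
game with a fixed number `n` of additional pebbles. (Restricting the vertices of the product by
such a formula gives nothing new: let the other vertices be isolated.)

No such product is `c`-multiplicative, even if the rule is allowed to depend on the graphs `G` and
`H` in an arbitrary way. More precisely, for given `n`, `a`, `b` and number of kinds there are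
graphs `F k` of chromatic number `k + O(1)` with `O(4 ^ k)` vertices, such that for every single
invariant rule `χ(F k * F l) ≤ K (k + l + 1)` or `χ(F k * F l) > 2 ^ min (k, l)`, and the second case is
excluded if `χ(G * H)` is bounded by any function of `χ(G)` and `χ(H)`. So a factor of order `log |G|`
is lost. This is optimal: the lexicographic product is such a product, it satisfies
`χ(G * H) ≤ χ(G) χ(H)`, and it loses a factor of at most `1 + log |G|`.

The proof. Let `m` be large enough. Every graph `G` is an induced subgraph of a graph `G'` in which
every pattern of adjacency to at most `m` vertices is realised, with `χ(G') ≤ χ(G) + m + 1` and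
`χ_f(G') ≤ χ_f(G) + m + 1` and `|G'| ≤ C |G|` (multipartite random graphs). On these graphs
every rule as above depends only on the relations between the vertices in the tuples. Let `x, y` be
tuples of the same pattern, with equal entries only where they come from equal entries, and without
edges between corresponding entries, and likewise `x', y'`. There are graphs of bounded chromatic
number with long sequences of tuples, any two of which are related like `x, y`. If the rule gives an
edge for `x, y` and `x', y'`, then the product of such graphs has large cliques. If the rule does not
give such edges, then a fractional colouring of `G` and `H` and random functions on the vertices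
which fix the entries of the tuples give a fractional colouring of the product with at most
`K χ_f(G) ^ a χ_f(H) ^ b` colours. Now take the extensions of shift graphs (which have `χ_f ≤ 4`)
together with the long sequences, and use `χ ≤ 1 + χ_f log n`.
-/

set_option autoImplicit false

namespace Pool.Agent.Results.MP_99abf8_co.DefinableProducts

open Pool.Agent.H829.GraphProducts

theorem result :
    (∀ G H : FGraph, chi (prodOf lexRule G H) ≤ chi G * chi H ∧
      (chi G : ℝ) * chi H ≤ (1 + Real.log (order G)) * chi (prodOf lexRule G H)) ∧
    (∀ (n r a b : ℕ)
      (φ : Fin (r + 1) → Fin (r + 1) → Fml ((Fin a ⊕ Fin a) ⊕ Fin n) ((Fin b ⊕ Fin b) ⊕ Fin n)),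
      Invariant n (ruleOf φ)) ∧
    (∀ (n r a b : ℕ) (Q : FGraph → FGraph → Rule r a b), (∀ G H : FGraph, Invariant n (Q G H)) →
      ∀ c : ℝ, 0 < c → ¬ Multiplicative c (fun G H => prodOf (Q G H) G H)) ∧
    ∀ n r a b : ℕ, ∃ (F : ℕ → FGraph) (K : ℝ),
      (∀ k : ℕ, k ≤ chi (F k) ∧ (chi (F k) : ℝ) ≤ k + K ∧ (order (F k) : ℝ) ≤ K * 4 ^ k) ∧
      ∀ (k l : ℕ) (Q : Rule r a b), Invariant n Q →
        (chi (prodOf Q (F k) (F l)) ≤ 2 ^ min k l ∨
          ∃ Φ : ℕ → ℕ → ℕ, ∀ G H : FGraph, chi (prodOf Q G H) ≤ Φ (chi G) (chi H)) →
        (chi (prodOf Q (F k) (F l)) : ℝ) ≤ K * (k + l + 1) := by
  refine ⟨fun G H => ?_, fun n r a b φ => invariant_ruleOf φ,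
    fun n r a b Q hQ c hc => not_multiplicative_adaptive Q hQ hc, dichotomy⟩
  rw [chi_lexRule]
  exact ⟨lex_upper G H, lex_lower G H⟩

end Pool.Agent.Results.MP_99abf8_co.DefinableProducts
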