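import Pool.Agent.H829.GraphProducts

/-!
# A nearly multiplicative product must create fractional chromatic number

`MP_99abf8_co` asks for a polynomial graph product `*` with
`c χ(G) χ(H) ≤ χ(G * H) ≤ χ(G) χ(H)` for all graphs `G`, `H`.

Let `*` be any rule, computable or not, which assigns to graphs `G`, `H` a graph `G * H` whose order
is bounded by a polynomial in the orders of `G` and `H`, and such that `c χ(G) χ(H) ≤ χ(G * H)`. Then
`χ_f(S * T) ≥ c' min (χ(S), χ(T))` for all shift graphs `S`, `T`, with a constant `c' > 0`, while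
`χ_f(S) ≤ 4` and `χ_f(T) ≤ 4`. In particular, no product of polynomial size, for which `χ_f(G * H)`
is bounded by a function of `χ_f(G)` and `χ_f(H)`, is `c`-multiplicative. (For instance,
`χ_f(G * H) = χ_f(G) χ_f(H)` for the Cartesian sum and the lexicographic product.)
-/

set_option autoImplicit false

namespace Pool.Agent.Results.MP_99abf8_co.FractionalCreation

open Pool.Agent.H829.GraphProducts

theorem result :
    (∀ k : ℕ, chi (shift k) = k + 1 ∧ chif (shift k) ≤ 4) ∧
    ∀ P : FGraph → FGraph → FGraph, PolySize P → ∀ c : ℝ, 0 < c →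
      (∀ G H : FGraph, c * (chi G * chi H) ≤ (chi (P G H) : ℝ)) →
      ∃ c' : ℝ, 0 < c' ∧ ∀ k l : ℕ,
        c' * min (chi (shift k) : ℝ) (chi (shift l)) ≤ chif (P (shift k) (shift l)) := by
  refine ⟨fun k => ⟨chi_shift k, chif_shift k⟩, fun P hP c hc hM => ?_⟩
  obtain ⟨c', hc', h⟩ := chif_of_lower hP hc hM
  refine ⟨c', hc', fun k l => ?_⟩
  rw [chi_shift, chi_shift]
  push_cast
  exact h k l

end Pool.Agent.Results.MP_99abf8_co.FractionalCreation
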