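import Mathlib

/-!
# Nearly multiplicative graph products are highly non-local

Suppose that for graphs with `n` vertices every vertex of `G * G'` depends on at most `k` vertices of
`G` and at most `k` vertices of `G'`, and that `χ(G * G') ≤ χ(G) χ(G')`.  Then
`χ(G * G) ≤ 80 K (⌈log₂ k⌉ + 1) χ(G)` for some `G` with `χ(G) = ⌊(log₂ n) / 2⌋`, where `K` is any
number such that `k ≤ K` or `G * G'` has at most `n ^ K` vertices (not counting isolated ones).
So in a `c`-multiplicative product of polynomial size some vertices depend on at least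
`n ^ (c / (160 K)) / 5` vertices of a factor, and in any `c`-multiplicative product some vertices depend
on at least `c' log n / log log n` vertices of a factor.

Outline of the proof.  `G` is the shift graph on the pairs of `2 ^ h` points (plus isolated vertices).
Let `a = ⌈log₂ k⌉ + 1` and let `ρ` be a map of the points to `{0, 1} ^ (2 a)`.  The subgraph of `G` on
the pairs whose points are mapped to different images has chromatic number at most `4 a`
(`restrict_colorable`), so by locality all vertices of the product which only depend on such pairs are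
covered by `16 a ^ 2` colour classes, if one map is used for each factor.  For a random pair of maps a
given vertex of the product is of this kind with probability at least `1 - 2 ^ (-a)`.  If the product
has at most `n ^ K` vertices, or if `k ≤ K` (when only `2 ^ (4 k h)` pairs of `k`-tuples matter), then
`4 K h / a + 1` pairs of maps suffice to cover all vertices of the product (`cover_bad`).
-/

namespace Pool.Agent.Results.MP_99abf8_co.LocalityOfProducts

/-- A product of graphs, in general: for graphs `G` on `n` and `G'` on `n'` vertices a graph on a set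
`Vert n n'` of possible vertices (those which are not used can be left isolated). -/
structure Product where
  Vert : ℕ → ℕ → Type
  graph : ∀ {n n' : ℕ}, SimpleGraph (Fin n) → SimpleGraph (Fin n') → SimpleGraph (Vert n n')

/-- The edges of `G` with both ends in `T`. -/
def restrict {V : Type} (G : SimpleGraph V) (T : Set V) : SimpleGraph V where
  Adj p q := G.Adj p q ∧ p ∈ T ∧ q ∈ T
  symm := ⟨fun _ _ h => ⟨h.1.symm, h.2.2, h.2.1⟩⟩
  loopless := ⟨fun p h => G.loopless.irrefl p h.1⟩

/-- The product is `k`-local for graphs with `n` vertices: every vertex `u` of the product has a set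
`S u` of at most `k` vertices of the first factor and a set `S' u` of at most `k` vertices of the
second factor such that an edge `u v` of the product never gets lost when edges of the first factor not
inside a set `T` containing `S u` and `S v`, and edges of the second factor not inside a set `T'`
containing `S' u` and `S' v`, are deleted (for example, because it only depends on the edges inside
`S u ∪ S v` and inside `S' u ∪ S' v` whether `u`, `v` are adjacent). -/
def Local (P : Product) (n k : ℕ) : Prop :=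
  ∃ S S' : P.Vert n n → Finset (Fin n), (∀ u, (S u).card ≤ k ∧ (S' u).card ≤ k) ∧
    ∀ (G G' : SimpleGraph (Fin n)) (T T' : Set (Fin n)) (u v : P.Vert n n),
      (∀ p ∈ S u, p ∈ T) → (∀ p ∈ S v, p ∈ T) → (∀ p ∈ S' u, p ∈ T') → (∀ p ∈ S' v, p ∈ T') →
        (P.graph G G').Adj u v → (P.graph (restrict G T) (restrict G' T')).Adj u v

/-- For all graphs `G`, `G'` with `n` vertices at most `M` vertices of the product are not isolated. -/
def SizeAtMost (P : Product) (n M : ℕ) : Prop :=
  ∀ G G' : SimpleGraph (Fin n), ∃ F : Finset (P.Vert n n), F.card ≤ M ∧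
    ∀ u v, (P.graph G G').Adj u v → u ∈ F

/-- `χ(G * G') ≤ χ(G) χ(G')` for all graphs with `n` vertices. -/
def UpperBound (P : Product) (n : ℕ) : Prop :=
  ∀ (G G' : SimpleGraph (Fin n)) (r r' : ℕ), G.chromaticNumber = r → G'.chromaticNumber = r' →
    (P.graph G G').chromaticNumber ≤ (r * r' : ℕ)

/-- The product is `c`-multiplicative on the graphs with `n` vertices:
`c χ(G) χ(G') ≤ χ(G * G') ≤ χ(G) χ(G')`. -/
def MultiplicativeAt (P : Product) (n : ℕ) (c : ℝ) : Prop :=
  ∀ (G G' : SimpleGraph (Fin n)) (r r' : ℕ), G.chromaticNumber = r → G'.chromaticNumber = r' →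
    ∃ s : ℕ, (P.graph G G').chromaticNumber = s ∧ c * r * r' ≤ s ∧ s ≤ r * r'

/-- vertices of the shift graph: pairs `i < j` -/
def ShiftV (n : ℕ) : Type := {p : Fin n × Fin n // p.1 < p.2}

noncomputable instance (n : ℕ) : Fintype (ShiftV n) := by
  classical
  exact (inferInstance : Fintype {p : Fin n × Fin n // p.1 < p.2})

/-- the shift graph -/
def shift (n : ℕ) : SimpleGraph (ShiftV n) where
  Adj p q := p.1.2 = q.1.1 ∨ q.1.2 = p.1.1
  symm := ⟨fun _ _ h => h.symm⟩
  loopless := ⟨fun p h => by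
    rcases h with h | h
    · exact absurd p.2 (by rw [h]; exact lt_irrefl _)
    · exact absurd p.2 (by rw [h]; exact lt_irrefl _)⟩

theorem shift_lower {n m : ℕ} (hc : (shift n).Colorable m) : n ≤ 2 ^ m := by
  classical
  obtain ⟨c⟩ := hc
  let S : Fin n → Finset (Fin m) := fun i =>
    Finset.univ.filter (fun a => ∃ (j : Fin n) (h : i < j), c ⟨(i, j), h⟩ = a)
  have hS : ∀ i j : Fin n, i < j → S i ≠ S j := by
    intro i j hij he
    have h1 : c ⟨(i, j), hij⟩ ∈ S i := by
      simp only [S, Finset.mem_filter, Finset.mem_univ, true_and]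
      exact ⟨j, hij, rfl⟩
    rw [he] at h1
    simp only [S, Finset.mem_filter, Finset.mem_univ, true_and] at h1
    obtain ⟨l, hl, hcl⟩ := h1
    have hadj : (shift n).Adj ⟨(i, j), hij⟩ ⟨(j, l), hl⟩ := Or.inl rfl
    exact c.valid hadj hcl.symm
  have hinj : Function.Injective S := by
    intro i j h
    rcases lt_trichotomy i j with h1 | h1 | h1
    · exact absurd h (hS i j h1)
    · exact h1
    · exact absurd h.symm (hS j i h1)
  have := Fintype.card_le_of_injective S hinj
  simpa using this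

theorem exists_bit {h i j : ℕ} (hij : i < j) (hj : j < 2 ^ h) :
    ∃ b : Fin h, i.testBit b = false ∧ j.testBit b = true := by
  by_contra hcon
  push Not at hcon
  have h1 : ∀ b, j.testBit b = true → i.testBit b = true := by
    intro b hb
    by_cases hbh : b < h
    · by_contra hi
      exact hcon ⟨b, hbh⟩ (by simpa using hi) hb
    · exfalso
      have : j < 2 ^ b := lt_of_lt_of_le hj (Nat.pow_le_pow_right (by norm_num) (not_lt.1 hbh))
      rw [Nat.testBit_lt_two_pow this] at hb
      exact absurd hb (by simp)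
  have h2 : j &&& i = j := by
    apply Nat.eq_of_testBit_eq
    intro b
    rw [Nat.testBit_and]
    cases hb : j.testBit b with
    | false => simp
    | true => simp [h1 b hb]
  have h3 : j &&& i ≤ i := Nat.and_le_right
  omega

theorem shift_upper (h : ℕ) : (shift (2 ^ h)).Colorable h := by
  classical
  have hex : ∀ p : ShiftV (2 ^ h), ∃ b : Fin h,
      (p.1.1 : ℕ).testBit b = false ∧ (p.1.2 : ℕ).testBit b = true :=
    fun p => exists_bit p.2 p.1.2.2
  choose b hb using hex
  refine ⟨SimpleGraph.Coloring.mk b ?_⟩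
  intro p q hpq he
  have h1 := hb p
  have h2 := hb q
  rw [← he] at h2
  rcases hpq with h3 | h3
  · rw [h3] at h1
    rw [h1.2] at h2
    exact absurd h2.1 (by simp)
  · rw [h3] at h2
    rw [h1.1] at h2
    exact absurd h2.2 (by simp)

theorem shift_chromatic (h : ℕ) : (shift (2 ^ h)).chromaticNumber = h := by
  apply le_antisymm
  · exact (shift_upper h).chromaticNumber_le
  · by_contra hcon
    push Not at hcon
    obtain ⟨m, hm⟩ := ENat.ne_top_iff_exists.1 (ne_top_of_lt hcon)
    have hcm : (shift (2 ^ h)).Colorable m := by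
      rw [← SimpleGraph.chromaticNumber_le_iff_colorable, ← hm]
    have h1 := shift_lower hcm
    have h2 : h ≤ m := (Nat.pow_le_pow_iff_right (by norm_num)).1 h1
    rw [← hm] at hcon
    have : m < h := by exact_mod_cast hcon
    omega

instance (h : ℕ) : Nonempty (ShiftV (2 ^ (h + 1))) :=
  ⟨⟨(⟨0, by positivity⟩, ⟨1, by rw [pow_succ]; have := Nat.one_le_two_pow (n := h); omega⟩),
    by simp [Fin.lt_def]⟩⟩

theorem shiftV_card (N : ℕ) : Fintype.card (ShiftV N) ≤ N * N := by
  have := Fintype.card_le_of_injective (fun p : ShiftV N => (p.1 : Fin N × Fin N))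
    Subtype.val_injective
  simpa using this

/-- covering by few maps -/
theorem cover_bad {Ω Z : Type} [Fintype Ω] [Nonempty Ω] (good : Ω → Z → Prop)
    [∀ ω z, Decidable (good ω z)] (D : ℕ)
    (h : ∀ z, D * (Finset.univ.filter (fun ω => ¬ good ω z)).card ≤ Fintype.card Ω) :
    ∀ (m : ℕ) (S : Finset Z), S.card < D ^ m → ∃ f : Fin m → Ω, ∀ z ∈ S, ∃ i, good (f i) z := by
  classical
  intro m
  induction m with
  | zero =>
    intro S hS
    have : S = ∅ := by
      rw [← Finset.card_eq_zero]
      simpa using hS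
    subst this
    exact ⟨fun i => i.elim0, fun z hz => by simp at hz⟩
  | succ m ih =>
    intro S hS
    obtain ⟨ω, hω⟩ : ∃ ω : Ω, D * (S.filter (fun z => ¬ good ω z)).card ≤ S.card := by
      by_contra hcon
      push Not at hcon
      have h1 : ∑ _ω : Ω, S.card < ∑ ω : Ω, D * (S.filter (fun z => ¬ good ω z)).card := by
        apply Finset.sum_lt_sum_of_nonempty Finset.univ_nonempty
        intro ω _
        exact hcon ω
      have h2 : ∑ ω : Ω, (S.filter (fun z => ¬ good ω z)).card =
          ∑ z ∈ S, (Finset.univ.filter (fun ω => ¬ good ω z)).card := by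
        simp only [Finset.card_filter]
        rw [Finset.sum_comm]
      rw [← Finset.mul_sum, h2, Finset.mul_sum, Finset.sum_const, smul_eq_mul,
        Finset.card_univ] at h1
      have h3 : ∑ z ∈ S, D * (Finset.univ.filter (fun ω => ¬ good ω z)).card ≤
          ∑ _z ∈ S, Fintype.card Ω := Finset.sum_le_sum (fun z _ => h z)
      rw [Finset.sum_const, smul_eq_mul] at h3
      nlinarith
    have hD : 0 < D := by
      rcases Nat.eq_zero_or_pos D with h0 | h0
      · subst h0
        simp at hS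
      · exact h0
    have hS' : (S.filter (fun z => ¬ good ω z)).card < D ^ m := by
      have : D * (S.filter (fun z => ¬ good ω z)).card < D * D ^ m := by
        calc _ ≤ S.card := hω
          _ < D ^ (m + 1) := hS
          _ = D * D ^ m := by ring
      exact lt_of_mul_lt_mul_left this (Nat.zero_le _)
    obtain ⟨f, hf⟩ := ih _ hS'
    refine ⟨Fin.cons ω f, ?_⟩
    intro z hz
    by_cases hg : good ω z
    · exact ⟨0, by simpa using hg⟩
    · obtain ⟨i, hi⟩ := hf z (Finset.mem_filter.2 ⟨hz, hg⟩)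
      exact ⟨i.succ, by simpa using hi⟩

/-- the points of the pair are mapped to different images -/
def Sep {N l : ℕ} (ρ : Fin N → Fin l → Bool) (p : ShiftV N) : Prop := ρ p.1.1 ≠ ρ p.1.2

open Classical in
theorem sep_count {N l : ℕ} (p : ShiftV N) :
    2 ^ l * (Finset.univ.filter (fun ρ : Fin N → Fin l → Bool => ¬ Sep ρ p)).card ≤
      Fintype.card (Fin N → Fin l → Bool) := by
  have hne : p.1.1 ≠ p.1.2 := ne_of_lt p.2
  let Φ : (Fin l → Bool) × {ρ : Fin N → Fin l → Bool // ¬ Sep ρ p} → (Fin N → Fin l → Bool) :=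
    fun q => Function.update q.2.1 p.1.2 q.1
  have hΦ : Function.Injective Φ := by
    rintro ⟨τ, ρ, hρ⟩ ⟨τ', ρ', hρ'⟩ h
    have h1 : τ = τ' := by
      have := congrFun h p.1.2
      simpa [Φ] using this
    have h2 : ρ = ρ' := by
      funext v
      have h3 : ∀ v, v ≠ p.1.2 → ρ v = ρ' v := by
        intro v hv
        have := congrFun h v
        simpa [Φ, Function.update_of_ne hv] using this
      by_cases hv : v = p.1.2
      · simp only [Sep, not_not] at hρ hρ'
        rw [hv, ← hρ, ← hρ']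
        exact h3 _ hne
      · exact h3 v hv
    subst h1
    subst h2
    rfl
  have := Fintype.card_le_of_injective Φ hΦ
  rw [Fintype.card_prod, Fintype.card_subtype] at this
  simpa using this

open Classical in
theorem tuple_count {N l k : ℕ} (x : Fin k → ShiftV N) :
    2 ^ l * (Finset.univ.filter
      (fun ρ : Fin N → Fin l → Bool => ∃ i, ¬ Sep ρ (x i))).card ≤
      k * Fintype.card (Fin N → Fin l → Bool) := by
  have h1 : (Finset.univ.filter (fun ρ : Fin N → Fin l → Bool => ∃ i, ¬ Sep ρ (x i))) =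
      Finset.univ.biUnion (fun i : Fin k =>
        Finset.univ.filter (fun ρ : Fin N → Fin l → Bool => ¬ Sep ρ (x i))) := by
    ext ρ
    simp
  rw [h1]
  calc _ ≤ 2 ^ l * ∑ i : Fin k,
        (Finset.univ.filter (fun ρ : Fin N → Fin l → Bool => ¬ Sep ρ (x i))).card :=
        Nat.mul_le_mul_left _ Finset.card_biUnion_le
    _ = ∑ i : Fin k, 2 ^ l *
        (Finset.univ.filter (fun ρ : Fin N → Fin l → Bool => ¬ Sep ρ (x i))).card :=
        Finset.mul_sum _ _ _
    _ ≤ ∑ _i : Fin k, Fintype.card (Fin N → Fin l → Bool) :=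
        Finset.sum_le_sum (fun i _ => sep_count (x i))
    _ = _ := by simp

open Classical in
theorem pair_count {N l k : ℕ} (x x' : Fin k → ShiftV N) :
    2 ^ l * (Finset.univ.filter
      (fun ω : (Fin N → Fin l → Bool) × (Fin N → Fin l → Bool) =>
        ¬ ((∀ i, Sep ω.1 (x i)) ∧ ∀ i, Sep ω.2 (x' i)))).card ≤
      2 * k * Fintype.card ((Fin N → Fin l → Bool) × (Fin N → Fin l → Bool)) := by
  have h1 : (Finset.univ.filter
      (fun ω : (Fin N → Fin l → Bool) × (Fin N → Fin l → Bool) =>
        ¬ ((∀ i, Sep ω.1 (x i)) ∧ ∀ i, Sep ω.2 (x' i)))) ⊆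
      ((Finset.univ.filter (fun ρ : Fin N → Fin l → Bool => ∃ i, ¬ Sep ρ (x i))) ×ˢ
        (Finset.univ : Finset (Fin N → Fin l → Bool))) ∪
      ((Finset.univ : Finset (Fin N → Fin l → Bool)) ×ˢ
        (Finset.univ.filter (fun ρ : Fin N → Fin l → Bool => ∃ i, ¬ Sep ρ (x' i)))) := by
    intro ω hω
    simp only [Finset.mem_filter, Finset.mem_univ, true_and] at hω
    simp only [Finset.mem_union, Finset.mem_product, Finset.mem_filter, Finset.mem_univ, true_and,
      and_true]
    by_contra hcon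
    push Not at hcon
    exact hω ⟨hcon.1, hcon.2⟩
  have h2 := (Finset.card_le_card h1).trans (Finset.card_union_le _ _)
  rw [Finset.card_product, Finset.card_product, Finset.card_univ] at h2
  have e1 := tuple_count (l := l) x
  have e2 := tuple_count (l := l) x'
  rw [Fintype.card_prod]
  calc _ ≤ 2 ^ l * (_ * Fintype.card (Fin N → Fin l → Bool) +
        Fintype.card (Fin N → Fin l → Bool) * _) := Nat.mul_le_mul_left _ h2
    _ = (2 ^ l * (Finset.univ.filter
        (fun ρ : Fin N → Fin l → Bool => ∃ i, ¬ Sep ρ (x i))).card) *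
          Fintype.card (Fin N → Fin l → Bool) +
        (2 ^ l * (Finset.univ.filter
        (fun ρ : Fin N → Fin l → Bool => ∃ i, ¬ Sep ρ (x' i))).card) *
          Fintype.card (Fin N → Fin l → Bool) := by ring
    _ ≤ (k * Fintype.card (Fin N → Fin l → Bool)) * Fintype.card (Fin N → Fin l → Bool) +
        (k * Fintype.card (Fin N → Fin l → Bool)) * Fintype.card (Fin N → Fin l → Bool) :=
        Nat.add_le_add (Nat.mul_le_mul_right _ e1) (Nat.mul_le_mul_right _ e2)
    _ = _ := by ring

theorem cover_family {U : Type} (h k a m : ℕ) (hk : 2 * k ≤ 2 ^ a)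
    (x x' : U → Fin k → ShiftV (2 ^ h)) (F : Finset U) (hF : F.card < (2 ^ a) ^ m) :
    ∃ f : Fin m →
      (Fin (2 ^ h) → Fin (2 * a) → Bool) × (Fin (2 ^ h) → Fin (2 * a) → Bool),
      ∀ u ∈ F, ∃ i, (∀ j, Sep (f i).1 (x u j)) ∧ ∀ j, Sep (f i).2 (x' u j) := by
  classical
  have hcount : ∀ u : U,
      2 ^ a * (Finset.univ.filter
      (fun ω : (Fin (2 ^ h) → Fin (2 * a) → Bool) × (Fin (2 ^ h) → Fin (2 * a) → Bool) =>
        ¬ ((∀ i, Sep ω.1 (x u i)) ∧ ∀ i, Sep ω.2 (x' u i)))).card ≤
      Fintype.card ((Fin (2 ^ h) → Fin (2 * a) → Bool) × (Fin (2 ^ h) → Fin (2 * a) → Bool)) := by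
    intro u
    have h1 := pair_count (l := 2 * a) (x u) (x' u)
    have h2 : 2 ^ a * (2 ^ a * (Finset.univ.filter
      (fun ω : (Fin (2 ^ h) → Fin (2 * a) → Bool) × (Fin (2 ^ h) → Fin (2 * a) → Bool) =>
        ¬ ((∀ i, Sep ω.1 (x u i)) ∧ ∀ i, Sep ω.2 (x' u i)))).card) ≤
      2 ^ a * Fintype.card
        ((Fin (2 ^ h) → Fin (2 * a) → Bool) × (Fin (2 ^ h) → Fin (2 * a) → Bool)) := by
      rw [← mul_assoc, ← pow_add, ← two_mul]
      exact h1.trans (Nat.mul_le_mul_right _ hk)
    exact Nat.le_of_mul_le_mul_left h2 (by positivity)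
  exact cover_bad
    (Ω := (Fin (2 ^ h) → Fin (2 * a) → Bool) × (Fin (2 ^ h) → Fin (2 * a) → Bool))
    (fun ω u => (∀ i, Sep ω.1 (x u i)) ∧ ∀ i, Sep ω.2 (x' u i)) (2 ^ a) hcount m F hF

/-- the pairs with different images -/
def sepSet {N n l : ℕ} (e : ShiftV N ↪ Fin n) (ρ : Fin N → Fin l → Bool) : Set (Fin n) :=
  {v | ∀ p, e p = v → Sep ρ p}

theorem restrict_colorable {N n a : ℕ} (e : ShiftV N ↪ Fin n) (ha : 0 < a)
    (ρ : Fin N → Fin (2 * a) → Bool) :
    (restrict ((shift N).map e) (sepSet e ρ)).Colorable (4 * a) := by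
  classical
  have hex : ∀ p : ShiftV N, ∃ b : Fin (2 * a), Sep ρ p → ρ p.1.1 b ≠ ρ p.1.2 b := by
    intro p
    by_cases hp : Sep ρ p
    · have : ∃ b, ρ p.1.1 b ≠ ρ p.1.2 b := by
        by_contra hcon
        push Not at hcon
        exact hp (funext hcon)
      obtain ⟨b, hb⟩ := this
      exact ⟨b, fun _ => hb⟩
    · exact ⟨⟨0, by omega⟩, fun h => absurd h hp⟩
  choose b hb using hex
  let c : Fin n → Fin (2 * a) × Bool :=
    Function.extend e (fun p => (b p, ρ p.1.1 (b p))) (fun _ => (⟨0, by omega⟩, false))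
  have hc : ∀ p, c (e p) = (b p, ρ p.1.1 (b p)) := fun p => e.injective.extend_apply _ _ p
  have hcol : (restrict ((shift N).map e) (sepSet e ρ)).Coloring (Fin (2 * a) × Bool) := by
    refine SimpleGraph.Coloring.mk c ?_
    rintro u v ⟨huv, hu, hv⟩ heq
    rw [SimpleGraph.map_adj] at huv
    obtain ⟨p, q, hpq, rfl, rfl⟩ := huv
    have hp := hb p (hu p rfl)
    have hq := hb q (hv q rfl)
    rw [hc, hc] at heq
    have h1 : b p = b q := congrArg Prod.fst heq
    have h2 : ρ p.1.1 (b p) = ρ q.1.1 (b q) := congrArg Prod.snd heq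
    rcases hpq with h3 | h3
    · rw [← h1, ← h3] at h2
      exact hp h2
    · rw [h1, ← h3] at h2
      exact hq h2.symm
  have := hcol.colorable
  have h4 : Fintype.card (Fin (2 * a) × Bool) = 4 * a := by
    simp only [Fintype.card_prod, Fintype.card_fin, Fintype.card_bool]
    ring
  rwa [h4] at this

theorem exists_tuple {N n k : ℕ} [Nonempty (ShiftV N)] (e : ShiftV N ↪ Fin n)
    (S : Finset (Fin n)) (hS : S.card ≤ k) :
    ∃ x : Fin k → ShiftV N, ∀ p, e p ∈ S → ∃ i, x i = p := by
  classical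
  let F : Finset (ShiftV N) := Finset.univ.filter (fun p => e p ∈ S)
  have hF : F.card ≤ k := by
    refine le_trans ?_ hS
    apply Finset.card_le_card_of_injOn e
    · intro p hp
      exact (Finset.mem_filter.1 hp).2
    · intro p _ q _ h
      exact e.injective h
  refine ⟨fun i => if h : (i : ℕ) < F.card then (F.equivFin.symm ⟨i, h⟩ : ShiftV N)
    else Classical.arbitrary _, ?_⟩
  intro p hp
  have hpF : p ∈ F := Finset.mem_filter.2 ⟨Finset.mem_univ _, hp⟩
  have hlt : ((F.equivFin ⟨p, hpF⟩ : Fin F.card) : ℕ) < F.card := (F.equivFin ⟨p, hpF⟩).2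
  refine ⟨⟨(F.equivFin ⟨p, hpF⟩ : Fin F.card), lt_of_lt_of_le hlt hF⟩, ?_⟩
  simp only [dif_pos hlt]
  simp

theorem map_chromatic {n h : ℕ} (hh : 0 < h) (e : ShiftV (2 ^ h) ↪ Fin n) :
    ((shift (2 ^ h)).map e).chromaticNumber = h := by
  classical
  apply le_antisymm
  · obtain ⟨c⟩ := shift_upper h
    rw [SimpleGraph.chromaticNumber_le_iff_colorable]
    refine ⟨SimpleGraph.Coloring.mk (Function.extend e c (fun _ => ⟨0, hh⟩)) ?_⟩
    intro u v huv
    rw [SimpleGraph.map_adj] at huv
    obtain ⟨p, q, hpq, rfl, rfl⟩ := huv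
    rw [e.injective.extend_apply, e.injective.extend_apply]
    exact c.valid hpq
  · rw [← shift_chromatic h]
    exact SimpleGraph.chromaticNumber_mono_of_hom
      (SimpleGraph.Embedding.map e (shift (2 ^ h))).toHom

theorem cover_either {U : Type} (n h k a K : ℕ) (hn : n < 2 ^ (2 * h + 2)) (hpos : 0 < h)
    (hapos : 0 < a) (hk : 2 * k ≤ 2 ^ a) (x x' : U → Fin k → ShiftV (2 ^ h)) (Q : U → Prop)
    (hQ : k ≤ K ∨ ∃ F : Finset U, F.card ≤ n ^ K ∧ ∀ u, Q u → u ∈ F) :
    ∃ f : Fin (4 * K * h / a + 1) →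
      (Fin (2 ^ h) → Fin (2 * a) → Bool) × (Fin (2 ^ h) → Fin (2 * a) → Bool),
      ∀ u, Q u → ∃ i, (∀ j, Sep (f i).1 (x u j)) ∧ ∀ j, Sep (f i).2 (x' u j) := by
  classical
  have hlast : 2 ^ (4 * K * h) < (2 ^ a) ^ (4 * K * h / a + 1) := by
    calc 2 ^ (4 * K * h) < 2 ^ (a * (4 * K * h / a + 1)) := by
          apply Nat.pow_lt_pow_right (by norm_num)
          exact Nat.lt_mul_div_succ _ hapos
      _ = (2 ^ a) ^ (4 * K * h / a + 1) := by rw [pow_mul]
  rcases hQ with hkK | ⟨F, hF, hFQ⟩
  · have hcard : (Finset.univ :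
        Finset ((Fin k → ShiftV (2 ^ h)) × (Fin k → ShiftV (2 ^ h)))).card <
        (2 ^ a) ^ (4 * K * h / a + 1) := by
      rw [Finset.card_univ, Fintype.card_prod, Fintype.card_fun, Fintype.card_fin]
      have h1 := shiftV_card (2 ^ h)
      refine lt_of_le_of_lt ?_ hlast
      calc _ ≤ (2 ^ h * 2 ^ h) ^ k * (2 ^ h * 2 ^ h) ^ k :=
            Nat.mul_le_mul (Nat.pow_le_pow_left h1 _) (Nat.pow_le_pow_left h1 _)
        _ = 2 ^ (4 * k * h) := by
            rw [← pow_add, ← pow_add, ← pow_mul]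
            congr 1
            ring
        _ ≤ 2 ^ (4 * K * h) := by
            apply Nat.pow_le_pow_right (by norm_num)
            exact Nat.mul_le_mul_right _ (Nat.mul_le_mul_left _ hkK)
    obtain ⟨f, hf⟩ := cover_family h k a (4 * K * h / a + 1) hk
      (fun z : (Fin k → ShiftV (2 ^ h)) × (Fin k → ShiftV (2 ^ h)) => z.1) (fun z => z.2)
      Finset.univ hcard
    exact ⟨f, fun u _ => hf (x u, x' u) (Finset.mem_univ _)⟩
  · have hcard : F.card < (2 ^ a) ^ (4 * K * h / a + 1) := by
      refine lt_of_le_of_lt ?_ hlast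
      calc F.card ≤ n ^ K := hF
        _ ≤ (2 ^ (2 * h + 2)) ^ K := Nat.pow_le_pow_left hn.le _
        _ = 2 ^ (K * (2 * h + 2)) := by rw [← pow_mul, mul_comm K]
        _ ≤ 2 ^ (4 * K * h) := by
            apply Nat.pow_le_pow_right (by norm_num)
            nlinarith
    obtain ⟨f, hf⟩ := cover_family h k a (4 * K * h / a + 1) hk x x' F hcard
    exact ⟨f, fun u hu => hf u (hFQ u hu)⟩

theorem main (P : Product) (n k K : ℕ) (hn : 4 ≤ n) (hK : 1 ≤ K)
    (hloc : Local P n k) (hsize : k ≤ K ∨ SizeAtMost P n (n ^ K)) (hup : UpperBound P n) :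
    ∃ G : SimpleGraph (Fin n), G.chromaticNumber = (Nat.log 2 n / 2 : ℕ) ∧
      (P.graph G G).chromaticNumber ≤
        (80 * K * (Nat.clog 2 k + 1) * (Nat.log 2 n / 2) : ℕ) := by
  classical
  obtain ⟨h, hh⟩ : ∃ h, h = Nat.log 2 n / 2 := ⟨_, rfl⟩
  rw [← hh]
  have hlog : 2 ≤ Nat.log 2 n := by
    have : Nat.log 2 4 ≤ Nat.log 2 n := Nat.log_mono_right hn
    have h4 : Nat.log 2 4 = 2 := by decide +revert
    omega
  have hpos : 0 < h := by omega
  obtain ⟨a, ha⟩ : ∃ a, a = Nat.clog 2 k + 1 := ⟨_, rfl⟩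
  rw [← ha]
  have hapos : 0 < a := by omega
  have hka : 2 * k ≤ 2 ^ a := by
    rw [ha, pow_succ, mul_comm]
    exact Nat.mul_le_mul_right _ (Nat.le_pow_clog (by norm_num) k)
  -- the graph
  have hcard : Fintype.card (ShiftV (2 ^ h)) ≤ Fintype.card (Fin n) := by
    rw [Fintype.card_fin]
    calc _ ≤ 2 ^ h * 2 ^ h := shiftV_card _
      _ = 2 ^ (h + h) := by rw [pow_add]
      _ ≤ 2 ^ (Nat.log 2 n) := Nat.pow_le_pow_right (by norm_num) (by omega)
      _ ≤ n := Nat.pow_log_le_self 2 (by omega)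
  obtain ⟨e⟩ := Function.Embedding.nonempty_of_card_le hcard
  have hne : Nonempty (ShiftV (2 ^ h)) := by
    obtain ⟨j, rfl⟩ : ∃ j, h = j + 1 := ⟨h - 1, by omega⟩
    infer_instance
  refine ⟨(shift (2 ^ h)).map e, map_chromatic hpos e, ?_⟩
  rcases Nat.lt_or_ge h a with hha | hah
  · -- the trivial bound
    have h1 := hup _ _ h h (map_chromatic hpos e) (map_chromatic hpos e)
    refine h1.trans ?_
    have h2 : h * h ≤ 80 * K * a * h := by
      apply Nat.mul_le_mul_right
      nlinarith
    exact_mod_cast h2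
  obtain ⟨S, S', hS, hedge⟩ := hloc
  -- tuples
  have hx : ∀ u, ∃ x : Fin k → ShiftV (2 ^ h), ∀ p, e p ∈ S u → ∃ i, x i = p :=
    fun u => exists_tuple e (S u) (hS u).1
  have hx' : ∀ u, ∃ x : Fin k → ShiftV (2 ^ h), ∀ p, e p ∈ S' u → ∃ i, x i = p :=
    fun u => exists_tuple e (S' u) (hS u).2
  choose x hx using hx
  choose x' hx' using hx'
  have hn2 : n < 2 ^ (2 * h + 2) := by
    calc n < 2 ^ (Nat.log 2 n + 1) := Nat.lt_pow_succ_log_self (by norm_num) n
      _ ≤ 2 ^ (2 * h + 2) := Nat.pow_le_pow_right (by norm_num) (by omega)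
  obtain ⟨f, hf⟩ := cover_either n h k a K hn2 hpos hapos hka x x'
    (fun u => ∃ v, (P.graph ((shift (2 ^ h)).map e) ((shift (2 ^ h)).map e)).Adj u v) (by
      rcases hsize with h1 | h1
      · exact Or.inl h1
      · obtain ⟨F, hF, hFadj⟩ := h1 ((shift (2 ^ h)).map e) ((shift (2 ^ h)).map e)
        exact Or.inr ⟨F, hF, fun u ⟨v, hv⟩ => hFadj u v hv⟩)
  -- every non-isolated vertex of the product is covered by one of the pairs
  have hcov : ∀ u : P.Vert n n, ∃ i,
      (∃ v, (P.graph ((shift (2 ^ h)).map e) ((shift (2 ^ h)).map e)).Adj u v) →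
      ((∀ p ∈ S u, p ∈ sepSet e (f i).1) ∧ ∀ p ∈ S' u, p ∈ sepSet e (f i).2) := by
    intro u
    by_cases hu : ∃ v, (P.graph ((shift (2 ^ h)).map e) ((shift (2 ^ h)).map e)).Adj u v
    · obtain ⟨i, h1, h2⟩ := hf u hu
      refine ⟨i, fun _ => ⟨?_, ?_⟩⟩
      · rintro p hp q rfl
        obtain ⟨j, hj⟩ := hx u q hp
        rw [← hj]
        exact h1 j
      · rintro p hp q rfl
        obtain ⟨j, hj⟩ := hx' u q hp
        rw [← hj]
        exact h2 j
    · exact ⟨0, fun h => absurd h hu⟩
  choose g hg using hcov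
  -- the colourings of the products of restricted graphs
  have hB : ∀ i, (P.graph (restrict ((shift (2 ^ h)).map e) (sepSet e (f i).1))
      (restrict ((shift (2 ^ h)).map e) (sepSet e (f i).2))).Colorable ((4 * a) * (4 * a)) := by
    intro i
    have c1 := restrict_colorable e hapos (f i).1
    have c2 := restrict_colorable e hapos (f i).2
    obtain ⟨s, hs⟩ := ENat.ne_top_iff_exists.1
      (ne_top_of_le_ne_top (ENat.natCast_ne_top (4 * a)) c1.chromaticNumber_le)
    obtain ⟨s', hs'⟩ := ENat.ne_top_iff_exists.1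
      (ne_top_of_le_ne_top (ENat.natCast_ne_top (4 * a)) c2.chromaticNumber_le)
    have h1 : s ≤ 4 * a := by
      have := c1.chromaticNumber_le
      rw [← hs] at this
      exact_mod_cast this
    have h1' : s' ≤ 4 * a := by
      have := c2.chromaticNumber_le
      rw [← hs'] at this
      exact_mod_cast this
    have h2 := hup _ _ s s' hs.symm hs'.symm
    rw [SimpleGraph.chromaticNumber_le_iff_colorable] at h2
    exact h2.mono (Nat.mul_le_mul h1 h1')
  let c := fun i => (hB i).some
  have hcol : (P.graph ((shift (2 ^ h)).map e) ((shift (2 ^ h)).map e)).Coloring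
      (Fin (4 * K * h / a + 1) × Fin ((4 * a) * (4 * a))) :=
    SimpleGraph.Coloring.mk (fun u => (g u, c (g u) u)) (by
      intro u v huv heq
      have h1 : g u = g v := congrArg Prod.fst heq
      have h2 : c (g u) u = c (g v) v := congrArg Prod.snd heq
      rw [← h1] at h2
      have hu := hg u ⟨v, huv⟩
      have hv := hg v ⟨u, huv.symm⟩
      rw [← h1] at hv
      refine (c (g u)).valid ?_ h2
      exact hedge _ _ _ _ u v hu.1 hv.1 hu.2 hv.2 huv)
  have h5 := hcol.colorable
  rw [Fintype.card_prod, Fintype.card_fin, Fintype.card_fin] at h5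
  rw [SimpleGraph.chromaticNumber_le_iff_colorable]
  refine h5.mono ?_
  have h6 : (4 * K * h / a) * a ≤ 4 * K * h := Nat.div_mul_le_self _ _
  calc (4 * K * h / a + 1) * (4 * a * (4 * a))
      = 16 * (((4 * K * h / a) * a) * a) + 16 * (a * a) := by ring
    _ ≤ 16 * ((4 * K * h) * a) + 16 * ((K * h) * a) := by
        apply Nat.add_le_add
        · exact Nat.mul_le_mul_left _ (Nat.mul_le_mul_right _ h6)
        · apply Nat.mul_le_mul_left
          apply Nat.mul_le_mul_right
          nlinarith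
    _ = 80 * K * a * h := by ring

/-- Let `*` be any product of graphs which is `k`-local for graphs with `n` vertices.  Let `K ≥ 1` be
such that `K ≥ k` or all products of graphs with `n` vertices have at most `n ^ K` vertices which are
not isolated.  Let `h = ⌊(log₂ n) / 2⌋`.
(1) If `χ(G * G') ≤ χ(G) χ(G')` for all graphs with `n` vertices, then `χ(G) = h` and
`χ(G * G) ≤ 80 K (⌈log₂ k⌉ + 1) χ(G)` for some graph `G` with `n` vertices.
(2) Consequently, if `*` is `c`-multiplicative on the graphs with `n` vertices, then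
`c h ≤ 80 K (⌈log₂ k⌉ + 1)`. -/
theorem result (P : Product) (n k K : ℕ) (hn : 4 ≤ n) (hK : 1 ≤ K)
    (hloc : Local P n k) (hsize : k ≤ K ∨ SizeAtMost P n (n ^ K)) :
    (UpperBound P n → ∃ G : SimpleGraph (Fin n),
      G.chromaticNumber = (Nat.log 2 n / 2 : ℕ) ∧ (P.graph G G).chromaticNumber ≤
        (80 * K * (Nat.clog 2 k + 1) * (Nat.log 2 n / 2) : ℕ)) ∧
    ∀ c : ℝ, MultiplicativeAt P n c →
      c * (Nat.log 2 n / 2 : ℕ) ≤ 80 * K * (Nat.clog 2 k + 1) := by
  refine ⟨main P n k K hn hK hloc hsize, ?_⟩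
  intro c hM
  have hup : UpperBound P n := by
    intro G G' r r' hr hr'
    obtain ⟨s, hs, -, hs2⟩ := hM G G' r r' hr hr'
    rw [hs]
    exact_mod_cast hs2
  obtain ⟨G, hG, hle⟩ := main P n k K hn hK hloc hsize hup
  obtain ⟨s, hs, hs1, -⟩ := hM G G _ _ hG hG
  rw [hs] at hle
  have hlog : 2 ≤ Nat.log 2 n := by
    have : Nat.log 2 4 ≤ Nat.log 2 n := Nat.log_mono_right hn
    have h4 : Nat.log 2 4 = 2 := by decide +revert
    omega
  have h1 : s ≤ 80 * K * (Nat.clog 2 k + 1) * (Nat.log 2 n / 2) := by exact_mod_cast hle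
  have h2 : (s : ℝ) ≤ ((80 * K * (Nat.clog 2 k + 1) * (Nat.log 2 n / 2) : ℕ) : ℝ) := by
    exact_mod_cast h1
  have h3 : (0 : ℝ) < ((Nat.log 2 n / 2 : ℕ) : ℝ) := by
    have : 0 < Nat.log 2 n / 2 := by omega
    exact_mod_cast this
  have h4 : c * ((Nat.log 2 n / 2 : ℕ) : ℝ) * ((Nat.log 2 n / 2 : ℕ) : ℝ) ≤
      (80 * K * (Nat.clog 2 k + 1)) * ((Nat.log 2 n / 2 : ℕ) : ℝ) := by
    refine le_trans hs1 (le_trans h2 (le_of_eq ?_))
    rw [Nat.cast_mul, Nat.cast_mul, Nat.cast_mul]
    push_cast
    ring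
  exact le_of_mul_le_mul_right h4 h3

end Pool.Agent.Results.MP_99abf8_co.LocalityOfProducts
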